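import Pool.Agent.helper62.RS.SpecS
import Pool.Agent.helper62.QU.All

/-!
# Row rs:SGR (MP_07c750_an): the Gram identity
-/

set_option autoImplicit false

open scoped MatrixGroups ContDiff Topology UpperHalfPlane
open UpperHalfPlane MeasureTheory Filter Set

namespace Pool.Agent.RS

/-- invariant continuous functions are bounded -/
theorem SGR_bdd (Γ : Subgroup SL(2, ℝ)) (F : Set ℍ) (u : ℍ → ℂ) (hΓ : QU.SurfaceGroup Γ)
    (hF : QU.NiceDom Γ F) (hu : InvC Γ u) : ∃ m : ℝ, 0 ≤ m ∧ ∀ z, ‖u z‖ ≤ m := by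
  obtain ⟨m, hm⟩ := (QU.A_BDD Γ F (fun z => ‖u z‖) hΓ hF
    ⟨hu.1.norm, fun γ z => by simp only [hu.2 γ z]⟩).1
  exact ⟨m, (abs_nonneg _).trans (hm I), fun z => (le_abs_self _).trans (hm z)⟩

/-- the measure of the fundamental domain is finite -/
theorem SGR_fin (hGFD : GFD_stmt) (Γ : Subgroup SL(2, ℝ)) (F : Set ℍ) (hΓ : QU.SurfaceGroup Γ)
    (hF : QU.NiceDom Γ F) : IsFiniteMeasure (mG.restrict (dG F)) := by
  obtain ⟨⟨-, -, hdf, -⟩, -⟩ := hGFD Γ F hΓ hF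
  exact ⟨by
    rw [Measure.restrict_apply_univ]
    exact hdf⟩

/-- the form `(z, w) ↦ ∫ φ(g z) conj(u(g w)) dg` -/
noncomputable def SGR_P (F : Set ℍ) (φ u : ℍ → ℂ) (z w : ℍ) : ℂ :=
  ∫ g in dG F, φ (g • z) * (starRingEnd ℂ) (u (g • w)) ∂mG

theorem SGR_inv (hGFD : GFD_stmt) (Γ : Subgroup SL(2, ℝ)) (F : Set ℍ) (φ u : ℍ → ℂ)
    (hΓ : QU.SurfaceGroup Γ) (hF : QU.NiceDom Γ F) (hφ : ∀ (γ : Γ) (z : ℍ), φ (γ • z) = φ z)
    (hu : ∀ (γ : Γ) (z : ℍ), u (γ • z) = u z) (h : SL(2, ℝ)) (z w : ℍ) :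
    SGR_P F φ u (h • z) (h • w) = SGR_P F φ u z w := by
  have h1 := ((hGFD Γ F hΓ hF).2 ℂ).1 (fun g => φ (g • z) * (starRingEnd ℂ) (u (g • w))) h
    (fun γ g => by
      change φ (((γ : SL(2, ℝ)) * g) • z) * (starRingEnd ℂ) (u (((γ : SL(2, ℝ)) * g) • w)) =
        φ (g • z) * (starRingEnd ℂ) (u (g • w))
      rw [mul_smul, mul_smul]
      have e1 := hφ γ (g • z)
      have e2 := hu γ (g • w)
      change φ ((γ : SL(2, ℝ)) • g • z) = _ at e1
      change u ((γ : SL(2, ℝ)) • g • w) = _ at e2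
      rw [e1, e2])
  unfold SGR_P
  rw [← h1]
  simp only [mul_smul]

/-- the average over the rotations -/
theorem SGR_avg (hGLC : GLC_stmt) (hGFD : GFD_stmt) (hSEQ : SEQ_stmt) (hSMV : SMV_stmt)
    (Γ : Subgroup SL(2, ℝ)) (F : Set ℍ) (s : ℝ) (φ u : ℍ → ℂ)
    (hΓ : QU.SurfaceGroup Γ) (hF : QU.NiceDom Γ F) (hφ2 : QU.CD 2 φ) (hφ : InvC Γ φ)
    (hlap : ∀ z, QU.lap φ z = ((1 / 4 + s ^ 2 : ℝ) : ℂ) * φ z) (hu : InvC Γ u) (t : ℝ) :
    ((2 * Real.pi : ℝ) : ℂ) * SGR_P F φ u (aM t • I) I =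
      (∫ θ in (0 : ℝ)..(2 * Real.pi), wv s (kM θ) (aM t • I)) *
        ∫ z in F, φ z * (starRingEnd ℂ) (u z) := by
  have : SecondCountableTopology SL(2, ℝ) := hGLC.2.1
  have := SGR_fin hGFD Γ F hΓ hF
  have hk : ∀ θ, kM θ • I = I := hGLC.2.2.2.2.2.2.2.2.2.2.2.2.2.2.2.1
  have hkc : Continuous kM := hGLC.2.2.2.2.2.2.1
  obtain ⟨m, hm0, hm⟩ := SGR_bdd Γ F φ hΓ hF hφ
  obtain ⟨m', hm'0, hm'⟩ := SGR_bdd Γ F u hΓ hF hu
  have hconst : ∀ θ, SGR_P F φ u (kM θ • aM t • I) I = SGR_P F φ u (aM t • I) I := by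
    intro θ
    have h1 := SGR_inv hGFD Γ F φ u hΓ hF hφ.2 hu.2 (kM θ) (aM t • I) I
    rwa [hk θ] at h1
  have e1 : ∫ θ in (0 : ℝ)..(2 * Real.pi), SGR_P F φ u (kM θ • aM t • I) I =
      ((2 * Real.pi : ℝ) : ℂ) * SGR_P F φ u (aM t • I) I := by
    simp only [hconst]
    rw [intervalIntegral.integral_const, sub_zero, Complex.real_smul]
  rw [← e1]
  have hpi : (0 : ℝ) ≤ 2 * Real.pi := by positivity
  have hcont : Continuous (fun p : ℝ × SL(2, ℝ) =>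
      φ (p.2 • kM p.1 • aM t • I) * (starRingEnd ℂ) (u (p.2 • I))) := by
    have h1 : Continuous (fun p : ℝ × SL(2, ℝ) => kM p.1 • (aM t • I)) :=
      (hkc.comp continuous_fst).smul continuous_const
    have h2 : Continuous (fun p : ℝ × SL(2, ℝ) => p.2 • kM p.1 • aM t • I) :=
      continuous_snd.smul h1
    have h3 : Continuous (fun p : ℝ × SL(2, ℝ) => p.2 • I) :=
      continuous_snd.smul continuous_const
    exact (hφ.1.comp h2).mul (Complex.continuous_conj.comp (hu.1.comp h3))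
  have hint : Integrable (fun p : ℝ × SL(2, ℝ) =>
      φ (p.2 • kM p.1 • aM t • I) * (starRingEnd ℂ) (u (p.2 • I)))
      ((volume.restrict (Ioc 0 (2 * Real.pi))).prod (mG.restrict (dG F))) := by
    refine (integrable_const (m * m')).mono' hcont.aestronglyMeasurable
      (Eventually.of_forall fun p => ?_)
    rw [norm_mul, RCLike.norm_conj]
    exact mul_le_mul (hm _) (hm' _) (norm_nonneg _) hm0
  have e2 : ∫ θ in (0 : ℝ)..(2 * Real.pi), SGR_P F φ u (kM θ • aM t • I) I =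
      ∫ g in dG F, (∫ θ in (0 : ℝ)..(2 * Real.pi),
        φ (g • kM θ • aM t • I) * (starRingEnd ℂ) (u (g • I))) ∂mG := by
    simp only [SGR_P, intervalIntegral.integral_of_le hpi]
    exact integral_integral_swap hint
  rw [e2]
  have e3 : ∀ g : SL(2, ℝ), (∫ θ in (0 : ℝ)..(2 * Real.pi),
      φ (g • kM θ • aM t • I) * (starRingEnd ℂ) (u (g • I))) =
      (∫ θ in (0 : ℝ)..(2 * Real.pi), wv s (kM θ) (aM t • I)) *
        (φ (g • I) * (starRingEnd ℂ) (u (g • I))) := by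
    intro g
    rw [intervalIntegral.integral_mul_const]
    have h1 := hSMV s (fun z => φ (g • z)) ((hSEQ φ g).1 2 hφ2)
      (fun z => by rw [(hSEQ φ g).2 hφ2 z, hlap]) t
    rw [h1]
    ring
  simp only [e3]
  rw [integral_const_mul]
  congr 1
  exact ((hGFD Γ F hΓ hF).2 ℂ).2.1 (fun z => φ z * (starRingEnd ℂ) (u z))
    (hφ.1.mul (Complex.continuous_conj.comp hu.1))

/-- the first part -/
theorem SGR_one (hGLC : GLC_stmt) (hGFD : GFD_stmt) (hSEQ : SEQ_stmt) (hSMV : SMV_stmt)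
    (hSCA : SCA_stmt) (hSPW : SPW_stmt)
    (Γ : Subgroup SL(2, ℝ)) (F : Set ℍ) (s : ℝ) (φ u : ℍ → ℂ)
    (hΓ : QU.SurfaceGroup Γ) (hF : QU.NiceDom Γ F) (hφ2 : QU.CD 2 φ) (hφ : InvC Γ φ)
    (hlap : ∀ z, QU.lap φ z = ((1 / 4 + s ^ 2 : ℝ) : ℂ) * φ z) (hu : InvC Γ u) (z w : ℍ) :
    SGR_P F φ u z w = sph s z w * ∫ z in F, φ z * (starRingEnd ℂ) (u z) := by
  have hk : ∀ θ, kM θ • I = I := hGLC.2.2.2.2.2.2.2.2.2.2.2.2.2.2.2.1
  have hw : toSL2R w • I = w := toSL2R_smul_I w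
  have e1 : SGR_P F φ u z w = SGR_P F φ u ((toSL2R w)⁻¹ • z) I := by
    have h1 := SGR_inv hGFD Γ F φ u hΓ hF hφ.2 hu.2 (toSL2R w) ((toSL2R w)⁻¹ • z) I
    rw [smul_inv_smul, hw] at h1
    exact h1
  have e2 : sph s z w = sph s ((toSL2R w)⁻¹ • z) I := by
    have h1 := hSPW.2.2.2.1 s (toSL2R w) ((toSL2R w)⁻¹ • z) I
    rw [smul_inv_smul, hw] at h1
    exact h1
  obtain ⟨α, t, -, hz⟩ := hSCA ((toSL2R w)⁻¹ • z)
  rw [e1, e2, hz]
  have e3 : SGR_P F φ u (kM α • aM t • I) I = SGR_P F φ u (aM t • I) I := by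
    have h1 := SGR_inv hGFD Γ F φ u hΓ hF hφ.2 hu.2 (kM α) (aM t • I) I
    rwa [hk α] at h1
  have e4 : sph s (kM α • aM t • I) I = sph s (aM t • I) I := by
    have h1 := hSPW.2.2.2.1 s (kM α) (aM t • I) I
    rwa [hk α] at h1
  rw [e3, e4, hSPW.2.2.2.2.1 s (aM t • I), mul_assoc,
    ← SGR_avg hGLC hGFD hSEQ hSMV Γ F s φ u hΓ hF hφ2 hφ hlap hu t, ← mul_assoc, ← Complex.ofReal_mul,
    inv_mul_cancel₀ (by positivity), Complex.ofReal_one, one_mul]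

/-- Fubini for a pairing -/
theorem SGR_fub (hGLC : GLC_stmt) (hGFD : GFD_stmt)
    (Γ : Subgroup SL(2, ℝ)) (F : Set ℍ) (hΓ : QU.SurfaceGroup Γ) (hF : QU.NiceDom Γ F)
    (A : SL(2, ℝ) → ℂ) (f ψ : ℍ → ℂ) (m m' : ℝ) (hm0 : 0 ≤ m) (hA : Continuous A) (hAm : ∀ g, ‖A g‖ ≤ m)
    (hf : Continuous f) (hfc : HasCompactSupport f) (hψ : Continuous ψ) (hψm : ∀ z, ‖ψ z‖ ≤ m') :
    ∫ g in dG F, A g * (∫ z : ℍ, f z * ψ (g • z)) ∂mG =
      ∫ z : ℍ, f z * ∫ g in dG F, A g * ψ (g • z) ∂mG := by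
  have : SecondCountableTopology SL(2, ℝ) := hGLC.2.1
  have := SGR_fin hGFD Γ F hΓ hF
  have hfi : Integrable f := hf.integrable_of_hasCompactSupport hfc
  have hcont : Continuous (fun p : SL(2, ℝ) × ℍ => A p.1 * (f p.2 * ψ (p.1 • p.2))) := by
    have h1 : Continuous (fun p : SL(2, ℝ) × ℍ => p.1 • p.2) := continuous_smul
    exact (hA.comp continuous_fst).mul ((hf.comp continuous_snd).mul (hψ.comp h1))
  have hint : Integrable (fun p : SL(2, ℝ) × ℍ => A p.1 * (f p.2 * ψ (p.1 • p.2)))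
      ((mG.restrict (dG F)).prod (volume : Measure ℍ)) := by
    have h1 : Integrable (fun p : SL(2, ℝ) × ℍ => (m * m') * ‖f p.2‖)
        ((mG.restrict (dG F)).prod (volume : Measure ℍ)) :=
      (integrable_const (m * m')).mul_prod hfi.norm
    refine h1.mono' hcont.aestronglyMeasurable (Eventually.of_forall fun p => ?_)
    rw [norm_mul, norm_mul]
    calc ‖A p.1‖ * (‖f p.2‖ * ‖ψ (p.1 • p.2)‖) ≤ m * (‖f p.2‖ * m') := by
          apply mul_le_mul (hAm _) _ (by positivity) hm0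
          exact mul_le_mul_of_nonneg_left (hψm _) (norm_nonneg _)
      _ = m * m' * ‖f p.2‖ := by ring
  calc ∫ g in dG F, A g * (∫ z : ℍ, f z * ψ (g • z)) ∂mG
      = ∫ g in dG F, (∫ z : ℍ, A g * (f z * ψ (g • z))) ∂mG := by
        simp only [integral_const_mul]
    _ = ∫ z : ℍ, (∫ g in dG F, A g * (f z * ψ (g • z)) ∂mG) := integral_integral_swap hint
    _ = ∫ z : ℍ, f z * ∫ g in dG F, A g * ψ (g • z) ∂mG := by
        refine integral_congr_ae (Eventually.of_forall fun z => ?_)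
        change (∫ g in dG F, A g * (f z * ψ (g • z)) ∂mG) = f z * ∫ g in dG F, A g * ψ (g • z) ∂mG
        rw [← integral_const_mul]
        refine integral_congr_ae (Eventually.of_forall fun g => ?_)
        change A g * (f z * ψ (g • z)) = f z * (A g * ψ (g • z))
        ring

/-- **SGR** -/
theorem SGR (hGLC : GLC_stmt) (hGFD : GFD_stmt) (hGBD : GBD_stmt) (hGWB : GWB_stmt)
    (hSEQ : SEQ_stmt) (hSMV : SMV_stmt) (hSCA : SCA_stmt) (hSPW : SPW_stmt) : SGR_stmt := by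
  intro Γ F s φ u hΓ hF hφ2 hφi hlap hu
  have hφ : InvC Γ φ := ⟨((QU.A_CA1 ℂ).1 φ).1 ((QU.A_CA1 ℂ).2.1 φ 0 2 (by norm_num) hφ2), hφi⟩
  have key := SGR_one hGLC hGFD hSEQ hSMV hSCA hSPW Γ F s φ u hΓ hF hφ2 hφ hlap hu
  refine ⟨key, fun f f' hf hfc hf' hfc' => ?_⟩
  obtain ⟨m, hm0, hm⟩ := SGR_bdd Γ F φ hΓ hF hφ
  obtain ⟨m', hm'0, hm'⟩ := SGR_bdd Γ F u hΓ hF hu
  have hW' : InvG Γ (Wf f' u) := (hGWB Γ f' u hΓ hf' hfc' hu).1
  obtain ⟨M, hM⟩ := (hGBD Γ ℂ (Wf f' u) hΓ hW').1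
  have hM0 : 0 ≤ M := (norm_nonneg _).trans (hM 1)
  have hconj : ∀ g, (starRingEnd ℂ) (Wf f' u g) =
      ∫ w : ℍ, (starRingEnd ℂ) (f' w) * (starRingEnd ℂ) (u (g • w)) :=
    (hGWB Γ f' u hΓ hf' hfc' hu).2.2
  -- the integral over `z`
  have s1 : ∫ g in dG F, Wf f φ g * (starRingEnd ℂ) (Wf f' u g) ∂mG =
      ∫ z : ℍ, f z * ∫ g in dG F, (starRingEnd ℂ) (Wf f' u g) * φ (g • z) ∂mG := by
    rw [← SGR_fub hGLC hGFD Γ F hΓ hF (fun g => (starRingEnd ℂ) (Wf f' u g)) f φ M m hM0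
      (Complex.continuous_conj.comp hW'.1) (fun g => by rw [RCLike.norm_conj]; exact hM g) hf hfc
      hφ.1 hm]
    refine integral_congr_ae (Eventually.of_forall fun g => ?_)
    change Wf f φ g * (starRingEnd ℂ) (Wf f' u g) =
      (starRingEnd ℂ) (Wf f' u g) * ∫ z : ℍ, f z * φ (g • z)
    rw [mul_comm]
    rfl
  -- the integral over `w`
  have s2 : ∀ z : ℍ, ∫ g in dG F, (starRingEnd ℂ) (Wf f' u g) * φ (g • z) ∂mG =
      (∫ w : ℍ, (starRingEnd ℂ) (f' w) * sph s z w) * ∫ z in F, φ z * (starRingEnd ℂ) (u z) := by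
    intro z
    have h1 := SGR_fub hGLC hGFD Γ F hΓ hF (fun g => φ (g • z)) (fun w => (starRingEnd ℂ) (f' w))
      (fun w => (starRingEnd ℂ) (u w)) m m' hm0
      (hφ.1.comp (continuous_id.smul continuous_const)) (fun g => hm _)
      (Complex.continuous_conj.comp hf') (hfc'.comp_left (map_zero _))
      (Complex.continuous_conj.comp hu.1) (fun w => by rw [RCLike.norm_conj]; exact hm' w)
    have h2 : ∫ g in dG F, (starRingEnd ℂ) (Wf f' u g) * φ (g • z) ∂mG =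
        ∫ g in dG F, φ (g • z) *
          (∫ w : ℍ, (starRingEnd ℂ) (f' w) * (starRingEnd ℂ) (u (g • w))) ∂mG := by
      refine integral_congr_ae (Eventually.of_forall fun g => ?_)
      change (starRingEnd ℂ) (Wf f' u g) * φ (g • z) = _
      rw [hconj g, mul_comm]
    rw [h2, h1, ← integral_mul_const]
    refine integral_congr_ae (Eventually.of_forall fun w => ?_)
    change (starRingEnd ℂ) (f' w) * SGR_P F φ u z w = _
    rw [key z w]
    ring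
  rw [s1, hSPW.2.2.2.2.2 s f f' hf hfc hf' hfc', ← integral_mul_const]
  refine integral_congr_ae (Eventually.of_forall fun z => ?_)
  change f z * (∫ g in dG F, (starRingEnd ℂ) (Wf f' u g) * φ (g • z) ∂mG) =
    (∫ w : ℍ, f z * (starRingEnd ℂ) (f' w) * sph s z w) * ∫ z in F, φ z * (starRingEnd ℂ) (u z)
  have e9 : f z * (∫ w : ℍ, (starRingEnd ℂ) (f' w) * sph s z w) =
      ∫ w : ℍ, f z * (starRingEnd ℂ) (f' w) * sph s z w := by
    rw [← integral_const_mul]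
    refine integral_congr_ae (Eventually.of_forall fun w => ?_)
    change f z * ((starRingEnd ℂ) (f' w) * sph s z w) = f z * (starRingEnd ℂ) (f' w) * sph s z w
    ring
  rw [s2 z, ← mul_assoc, e9]

end Pool.Agent.RS
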